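import Pool.Agent.H90.Q5.Main

/-!
# The chromatic number of the rational unit distance graph in dimension five is at least eleven

Method: average a colouring over a box of the lattice `(1/8) ℤ ^ 5` with a sine window; a positive combination of the seven orbits of
vectors of length `8` in `ℤ ^ 5` is at least `-6017` on all characters (kernel computation with the cosines of `2 π k / 64`).
-/

namespace Pool.Agent.Results.MP_79d6cb_co.AtLeastEleven

open Finset

/-- In every colouring of the rational points of five-dimensional space with ten colours, two points at distance `1` have the
same colour. -/
theorem result (c : (Fin 5 → ℚ) → Fin 10) :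
    ∃ x y : Fin 5 → ℚ, ∑ i, (x i - y i) ^ 2 = 1 ∧ c x = c y :=
  Pool.Agent.H90.Q5.main c

end Pool.Agent.Results.MP_79d6cb_co.AtLeastEleven
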