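import Pool.Agent.H18.QR.Comp2

/-!
# The rational and the real unit distance graphs have the same chromatic number (dimension >= 5)

For every `n ≥ 5` and every `k`, the points of `Q^n` can be coloured with `k` colours so that points
at distance `1` get different colours if and only if the points of `R^n` can.

Method: the circle method shows that, in the operator norm on functions on `Q^n`, the sum of the
translations by the vectors of the sphere `|a| = M` (`a` in `Z^n`, scaled by `1/M`) is close to its
average over the neighbouring spheres `|a|^2 = N`, `N = M^2 (mod D)`. So a set of rational points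
without unit distances has, after smoothing at a suitable scale, almost no correlation at any real
distance close to `1`; the smoothed colour classes form a partition of unity, which colours every
finite unit distance graph of `R^n`. Compactness finishes the proof.
-/

namespace Pool.Agent.Results.MP_79d6cb_co.EqualsRealSpace

theorem result : ∀ n : ℕ, 5 ≤ n → ∀ k : ℕ,
    (∃ c : (Fin n → ℚ) → Fin k, ∀ x y : Fin n → ℚ, ∑ i, (x i - y i) ^ 2 = 1 → c x ≠ c y) ↔
      (∃ c : (Fin n → ℝ) → Fin k, ∀ x y : Fin n → ℝ, ∑ i, (x i - y i) ^ 2 = 1 → c x ≠ c y) :=
  fun _ hn k => Pool.Agent.H18.QR.main hn k

end Pool.Agent.Results.MP_79d6cb_co.EqualsRealSpace
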